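import Pool.Agent.X55.HZ.Stm

set_option autoImplicit false

namespace Pool.Agent.X192.HZ

open Finset Pool.Agent.X55.HZ

variable {n m : ℕ}

/-- paths with a given word of colours -/
def Pth (E : Fin m → Fin n → Fin n → Prop) : List (Fin m) → Fin n → Fin n → Prop
  | [], x, y => x = y
  | k :: l, x, y => ∃ z, E k x z ∧ Pth E l z y

theorem prod_nonneg (A : Fin m → Matrix (Fin n) (Fin n) ℝ) (hA : ∀ k x y, 0 ≤ A k x y) :
    ∀ (l : List (Fin m)) (x y : Fin n), 0 ≤ (l.map A).prod x y := by
  intro l
  induction l with
  | nil =>
    intro x y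
    simp only [List.map_nil, List.prod_nil, Matrix.one_apply]
    split <;> norm_num
  | cons k l ih =>
    intro x y
    rw [List.map_cons, List.prod_cons, Matrix.mul_apply]
    exact Finset.sum_nonneg fun z _ => mul_nonneg (hA k x z) (ih z y)

theorem prod_pos_iff (A : Fin m → Matrix (Fin n) (Fin n) ℝ) (hA : ∀ k x y, 0 ≤ A k x y) :
    ∀ (l : List (Fin m)) (x y : Fin n), 0 < (l.map A).prod x y ↔
      Pth (fun k x y => 0 < A k x y) l x y := by
  intro l
  induction l with
  | nil =>
    intro x y
    simp only [List.map_nil, List.prod_nil, Matrix.one_apply, Pth]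
    split <;> simp_all
  | cons k l ih =>
    intro x y
    rw [List.map_cons, List.prod_cons, Matrix.mul_apply,
      Finset.sum_pos_iff_of_nonneg fun z _ => mul_nonneg (hA k x z) (prod_nonneg A hA l z y)]
    constructor
    · rintro ⟨z, -, hz⟩
      have h1 := hA k x z
      have h2 := prod_nonneg A hA l z y
      have h3 : 0 < A k x z := by
        rcases h1.lt_or_eq with h | h
        · exact h
        · rw [← h, zero_mul] at hz; exact absurd hz (lt_irrefl _)
      have h4 : 0 < (l.map A).prod z y := by
        rcases h2.lt_or_eq with h | h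
        · exact h
        · rw [← h, mul_zero] at hz; exact absurd hz (lt_irrefl _)
      exact ⟨z, h3, (ih z y).1 h4⟩
    · rintro ⟨z, h1, h2⟩
      exact ⟨z, Finset.mem_univ _, mul_pos h1 ((ih z y).2 h2)⟩

theorem wk_iff (E : Fin m → Fin n → Fin n → Prop) (α : Fin m → ℕ) (x y : Fin n) :
    Wk E α x y ↔ ∃ l : List (Fin m), (∀ i, l.count i = α i) ∧ Pth E l x y := by
  constructor
  · intro h
    induction h with
    | nil x => exact ⟨[], by simp, rfl⟩
    | @cons k x y z α h w ih =>
      obtain ⟨l, hl, hp⟩ := ih
      refine ⟨k :: l, fun i => ?_, y, h, hp⟩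
      rw [List.count_cons, hl i, Pi.add_apply, Pi.single_apply]
      by_cases hk : k = i
      · subst hk; simp
      · simp [hk, Ne.symm hk]
  · rintro ⟨l, hl, hp⟩
    have e : α = fun i => l.count i := funext fun i => (hl i).symm
    subst e
    clear hl
    induction l generalizing x with
    | nil =>
      have hxy : x = y := hp
      subst hxy
      have : (fun i => ([] : List (Fin m)).count i) = 0 := by funext i; simp
      rw [this]
      exact Wk.nil x
    | cons k l ih =>
      obtain ⟨z, h1, h2⟩ := hp
      have : (fun i => (k :: l).count i) = (fun i => l.count i) + Pi.single k 1 := by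
        funext i
        rw [List.count_cons, Pi.add_apply, Pi.single_apply]
        by_cases hk : k = i
        · subst hk; simp
        · simp [hk, Ne.symm hk]
      rw [this]
      exact Wk.cons h1 (ih z h2)

theorem count_ofFn {N : ℕ} (w : Fin N → Fin m) (i : Fin m) :
    (List.ofFn w).count i = (univ.filter (fun t => w t = i)).card := by
  induction N with
  | zero => simp
  | succ N ih =>
    rw [List.ofFn_succ, List.count_cons, ih, Fin.univ_succ, Finset.filter_cons]
    split_ifs with h1 h2 h2
    · rw [Finset.card_cons, Finset.filter_map, Finset.card_map]; rfl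
    · simp_all
    · simp_all
    · rw [Finset.filter_map, Finset.card_map]; rfl

theorem length_eq (l : List (Fin m)) : l.length = ∑ i, l.count i := by
  induction l with
  | nil => simp
  | cons k l ih =>
    rw [List.length_cons, ih]
    simp only [List.count_cons, Finset.sum_add_distrib]
    simp

theorem t_HUR : S_HUR := by
  intro n m A hA α x y
  unfold hur
  rw [wk_iff, Matrix.sum_apply]
  have e : ∀ w : Fin (∑ i, α i) → Fin m,
      (List.ofFn fun t => A (w t)).prod = ((List.ofFn w).map A).prod := by
    intro w
    rw [List.map_ofFn]; rfl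
  rw [Finset.sum_pos_iff_of_nonneg fun w _ => by rw [e]; exact prod_nonneg A hA _ x y]
  constructor
  · rintro ⟨w, hw, hpos⟩
    rw [Finset.mem_filter] at hw
    rw [e, prod_pos_iff A hA] at hpos
    exact ⟨List.ofFn w, fun i => by rw [count_ofFn]; exact hw.2 i, hpos⟩
  · rintro ⟨l, hl, hp⟩
    have hN : l.length = ∑ i, α i := by
      rw [length_eq]; exact Finset.sum_congr rfl fun i _ => hl i
    have key : ∃ w : Fin (∑ i, α i) → Fin m, List.ofFn w = l := by
      rw [← hN]
      exact ⟨l.get, List.ofFn_get l⟩
    obtain ⟨w, hw⟩ := key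
    refine ⟨w, ?_, ?_⟩
    · rw [Finset.mem_filter]
      refine ⟨Finset.mem_univ _, fun i => ?_⟩
      rw [← count_ofFn, hw]; exact hl i
    · rw [e, prod_pos_iff A hA, hw]; exact hp

end Pool.Agent.X192.HZ
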